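import Pool.Agent.N805.JG.Stm

/-! JG/SIGN (helper55, project JG of helper805): the sign of the difference of the mixed first
moments. -/

set_option autoImplicit false

open MeasureTheory Filter Topology

namespace Pool.Agent.N55.JG

open Pool.Agent.N805.JG

lemma pw {I : Finset ℕ} {x : ℕ → ℝ} (hx : ∀ i, 0 ≤ x i) {K : ℝ} (hK : 1 ≤ K) :
    |∏ i ∈ I, max (K - x i) 0 - ∏ i ∈ I, (K - x i)| ≤ (∑ i ∈ I, x i ^ (I.card + 1)) / K := by
  have hK0 : 0 < K := by linarith
  have hs : 0 ≤ ∑ i ∈ I, x i ^ (I.card + 1) := Finset.sum_nonneg fun i _ => pow_nonneg (hx i) _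
  by_cases h : ∀ i ∈ I, x i ≤ K
  · have : ∏ i ∈ I, max (K - x i) 0 = ∏ i ∈ I, (K - x i) :=
      Finset.prod_congr rfl fun i hi => max_eq_left (by linarith [h i hi])
    rw [this, sub_self, abs_zero]
    positivity
  · push Not at h
    obtain ⟨i0, hi0, h0⟩ := h
    have hz : ∏ i ∈ I, max (K - x i) 0 = 0 :=
      Finset.prod_eq_zero hi0 (max_eq_right (by linarith))
    obtain ⟨m, hm, hmax⟩ := Finset.exists_max_image I x ⟨i0, hi0⟩
    have hKm : K < x m := h0.trans_le (hmax i0 hi0)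
    rw [hz, zero_sub, abs_neg, Finset.abs_prod]
    calc ∏ i ∈ I, |K - x i| ≤ ∏ i ∈ I, x m := by
          refine Finset.prod_le_prod (fun i _ => abs_nonneg _) fun i hi => ?_
          rw [abs_le]
          constructor
          · linarith [hmax i hi]
          · linarith [hx i]
      _ = x m ^ I.card := by rw [Finset.prod_const]
      _ ≤ x m ^ (I.card + 1) / K := by
          rw [le_div_iff₀ hK0, pow_succ]
          exact mul_le_mul_of_nonneg_left hKm.le (pow_nonneg (hx m) _)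
      _ ≤ _ := by
          refine div_le_div_of_nonneg_right ?_ hK0.le
          exact Finset.single_le_sum (f := fun i => x i ^ (I.card + 1))
            (fun i _ => pow_nonneg (hx i) _) hm

section

variable {ι : Type} {L : Filter ι} {P Q : ι → Measure (ℕ → ℝ)}

lemma int_gen (hINT : S_INT) (hP : Good L P) (I : Finset ℕ) (j : ι) {f : (ℕ → ℝ) → ℝ}
    (hf : Measurable f) {c : ℝ} (h : ∀ x, |f x| ≤ c * ∏ i ∈ I, (1 + |x i|)) :
    Integrable f (P j) := by
  have h1 := (hINT hP I 1).1 j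
  simp only [pow_one] at h1
  refine (h1.const_mul c).mono' hf.aestronglyMeasurable (Eventually.of_forall fun x => ?_)
  rw [Real.norm_eq_abs]
  exact h x

lemma int_max (hINT : S_INT) (hP : Good L P) (I : Finset ℕ) {K : ℝ} (hK : 1 ≤ K) (j : ι) :
    Integrable (fun x : ℕ → ℝ => ∏ i ∈ I, max (K - x i) 0) (P j) := by
  refine int_gen hINT hP I j (c := K ^ I.card) ?_ fun x => ?_
  · exact Finset.measurable_fun_prod I fun i _ =>
      ((measurable_const.sub (measurable_pi_apply i)).max measurable_const)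
  · rw [Finset.abs_prod, ← Finset.prod_const, ← Finset.prod_mul_distrib]
    refine Finset.prod_le_prod (fun i _ => abs_nonneg _) fun i _ => ?_
    rw [abs_of_nonneg (le_max_right _ _)]
    refine max_le ?_ (by positivity)
    nlinarith [neg_abs_le (x i), abs_nonneg (x i)]

lemma int_sub (hINT : S_INT) (hP : Good L P) (I : Finset ℕ) {K : ℝ} (hK : 1 ≤ K) (j : ι) :
    Integrable (fun x : ℕ → ℝ => ∏ i ∈ I, (K - x i)) (P j) := by
  refine int_gen hINT hP I j (c := K ^ I.card) ?_ fun x => ?_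
  · exact Finset.measurable_fun_prod I fun i _ => measurable_const.sub (measurable_pi_apply i)
  · rw [Finset.abs_prod, ← Finset.prod_const, ← Finset.prod_mul_distrib]
    refine Finset.prod_le_prod (fun i _ => abs_nonneg _) fun i _ => ?_
    rw [abs_le]
    constructor
    · nlinarith [neg_abs_le (x i), abs_nonneg (x i), le_abs_self (x i)]
    · nlinarith [neg_abs_le (x i), abs_nonneg (x i), le_abs_self (x i)]

lemma int_prod (hINT : S_INT) (hP : Good L P) (I : Finset ℕ) (j : ι) :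
    Integrable (fun x : ℕ → ℝ => ∏ i ∈ I, x i) (P j) := by
  refine int_gen hINT hP I j (c := 1) ?_ fun x => ?_
  · exact Finset.measurable_fun_prod I fun i _ => measurable_pi_apply i
  · rw [Finset.abs_prod, one_mul]
    refine Finset.prod_le_prod (fun i _ => abs_nonneg _) fun i _ => ?_
    linarith

lemma exp_bd (hINT : S_INT) (hP : Good L P) (I : Finset ℕ) :
    ∃ C : ℝ, 0 ≤ C ∧ ∀ K : ℝ, 1 ≤ K → ∀ᶠ j in L,
      |∫ x, ∏ i ∈ I, max (K - x i) 0 ∂(P j) - ∫ x, ∏ i ∈ I, (K - x i) ∂(P j)| ≤ C / K := by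
  have hc := fun i => hP.mom i (I.card + 1)
  choose C hC using hc
  refine ⟨∑ i ∈ I, |C i|, Finset.sum_nonneg fun i _ => abs_nonneg _, fun K hK => ?_⟩
  have hev : ∀ᶠ j in L, ∀ i ∈ I, ∫ x, x i ^ (I.card + 1) ∂(P j) ≤ C i :=
    (Finset.eventually_all I).2 fun i _ => hC i
  filter_upwards [hev] with j hj
  have hK0 : 0 < K := by linarith
  have i1 := int_max hINT hP I hK j
  have i2 := int_sub hINT hP I hK j
  rw [← integral_sub i1 i2]
  have hae : ∀ᵐ x ∂(P j), ∀ i, 0 ≤ x i := ae_all_iff.2 fun i => hP.nn j i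
  have hsum : Integrable (fun x : ℕ → ℝ => (∑ i ∈ I, x i ^ (I.card + 1)) / K) (P j) :=
    (integrable_finset_sum I fun i _ => hP.int j i _).div_const K
  calc |∫ x, (∏ i ∈ I, max (K - x i) 0 - ∏ i ∈ I, (K - x i)) ∂(P j)|
      ≤ ∫ x, |∏ i ∈ I, max (K - x i) 0 - ∏ i ∈ I, (K - x i)| ∂(P j) :=
        abs_integral_le_integral_abs
    _ ≤ ∫ x, (∑ i ∈ I, x i ^ (I.card + 1)) / K ∂(P j) :=
        integral_mono_ae (i1.sub i2).abs hsum (hae.mono fun x hx => pw hx hK)
    _ = (∑ i ∈ I, ∫ x, x i ^ (I.card + 1) ∂(P j)) / K := by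
        rw [integral_div, integral_finset_sum]
        exact fun i _ => hP.int j i _
    _ ≤ _ := by
        refine div_le_div_of_nonneg_right (Finset.sum_le_sum fun i hi => ?_) hK0.le
        exact (hj i hi).trans (le_abs_self _)

lemma expand (I : Finset ℕ) (K : ℝ) (x : ℕ → ℝ) :
    ∏ i ∈ I, (K - x i) =
      ∑ J ∈ I.powerset, ((-1) ^ J.card * K ^ (I \ J).card) * ∏ i ∈ J, x i := by
  have h1 : ∏ i ∈ I, (K - x i) = ∏ i ∈ I, (-x i + K) := Finset.prod_congr rfl fun i _ => by ring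
  rw [h1, Finset.prod_add]
  refine Finset.sum_congr rfl fun J _ => ?_
  rw [Finset.prod_neg, Finset.prod_const]
  ring

lemma D_expand (hINT : S_INT) (hP : Good L P) (hQ : Good L Q) (I : Finset ℕ) (K : ℝ) (j : ι) :
    D P Q j (fun x => ∏ i ∈ I, (K - x i)) =
      ∑ J ∈ I.powerset, ((-1) ^ J.card * K ^ (I \ J).card) * D P Q j (fun x => ∏ i ∈ J, x i) := by
  unfold D
  simp only [expand I K]
  rw [integral_finset_sum _ fun J _ => (int_prod hINT hP J j).const_mul _,
    integral_finset_sum _ fun J _ => (int_prod hINT hQ J j).const_mul _, ← Finset.sum_sub_distrib]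
  refine Finset.sum_congr rfl fun J _ => ?_
  rw [integral_const_mul, integral_const_mul]
  ring

end

theorem SIGN : S_SIGN := by
  intro hINT ι L P Q hP hQ r hr hLow I hI hmax ε hε
  obtain ⟨C1, hC1, h1⟩ := exp_bd hINT hP I
  obtain ⟨C2, hC2, h2⟩ := exp_bd hINT hQ I
  -- choice of `K`
  obtain ⟨K, hK1, hK⟩ : ∃ K : ℝ, 1 ≤ K ∧ (C1 + C2) / K ≤ ε / 3 := by
    refine ⟨max 1 (3 * (C1 + C2) / ε), le_max_left _ _, ?_⟩
    have hK0 : 0 < max 1 (3 * (C1 + C2) / ε) := lt_of_lt_of_le one_pos (le_max_left _ _)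
    rw [div_le_iff₀ hK0]
    have : 3 * (C1 + C2) / ε ≤ max 1 (3 * (C1 + C2) / ε) := le_max_right _ _
    rw [div_le_iff₀ hε] at this
    linarith
  have hlow : Tendsto (fun j => ∑ J ∈ I.powerset.erase I,
      ((-1) ^ J.card * K ^ (I \ J).card) * D P Q j (fun x => ∏ i ∈ J, x i)) L (𝓝 0) := by
    have : (0:ℝ) = ∑ J ∈ I.powerset.erase I, ((-1) ^ J.card * K ^ (I \ J).card) * 0 := by simp
    rw [this]
    refine tendsto_finset_sum _ fun J hJ => Tendsto.const_mul _ ?_
    have hJ' := Finset.mem_erase.1 hJ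
    have hcard : J.card < r := by
      rw [← hI]
      exact Finset.card_lt_card ((Finset.mem_powerset.1 hJ'.2).ssubset_of_ne hJ'.1)
    have := hLow J hcard (fun _ => 1)
    simpa only [pow_one] using this
  have hl : ∀ᶠ j in L, -(ε / 3) < ∑ J ∈ I.powerset.erase I,
      ((-1) ^ J.card * K ^ (I \ J).card) * D P Q j (fun x => ∏ i ∈ J, x i) :=
    hlow.eventually (lt_mem_nhds (by linarith))
  filter_upwards [h1 K hK1, h2 K hK1, hmax (fun _ => K) (fun _ => by linarith) (ε / 3) (by linarith),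
    hl] with j a1 a2 a3 a4
  have e1 := D_expand hINT hP hQ I K j
  rw [← Finset.add_sum_erase _ _ (Finset.mem_powerset_self I)] at e1
  rw [Finset.sdiff_self, Finset.card_empty, pow_zero, mul_one, hI] at e1
  have a5 := (abs_le.1 a1)
  have a6 := (abs_le.1 a2)
  have e2 : (C1 + C2) / K = C1 / K + C2 / K := add_div _ _ _
  unfold D at e1 a3 a4 ⊢
  linarith [a5.1, a5.2, a6.1, a6.2]

end Pool.Agent.N55.JG
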